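import Mathlib
import Pool.Agent.H3.JSlide

set_option autoImplicit false

namespace Pool.Agent.Results.MP_5d374e_co.Redundant

open Pool.Agent.H3.SlideG

theorem result : ∀ (W : Type) (H : SimpleGraph W), (IReal H ∧ AReal H) ↔ AReal H :=
  Pool.Agent.H3.JSlide.joined.1

end Pool.Agent.Results.MP_5d374e_co.Redundant
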